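import Pool.Agent.V7H14.BP.Weyl
import Pool.Agent.TH629.ExpAlg

set_option autoImplicit false

/-! # Coefficients in the ring generated by the real algebraic numbers and `e`

Copied, with other imports, from `Pool.Agent.N534.PG.Alg` of the starting library. -/

namespace Pool.Agent.V7H14.BP

open Finset Filter Module
open Pool.Agent.W472.AC (Meas)

/-- from a measure of linear independence to a Diophantine condition modulo one -/
theorem dio_span {m r : ℕ} (g : Fin (m + 1) → ℝ) (W c₀ : ℝ) (hW : 0 ≤ W) (hc₀ : 0 < c₀)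
    (hM : Meas g W c₀) (h1 : (1 : ℝ) ∈ Submodule.span ℚ (Set.range g)) (v : Fin r → ℝ)
    (hv : ∀ j, v j ∈ Submodule.span ℚ (Set.range g)) :
    ∃ c : ℝ, 0 < c ∧ ∀ (H : ℝ) (h : Fin r → ℤ), (∀ j, |(h j : ℝ)| ≤ H) →
      Irrational (∑ j, (h j : ℝ) * v j) → ∀ k : ℤ,
      c * H ^ (-W) ≤ |∑ j, (h j : ℝ) * v j - k| := by
  classical
  obtain ⟨q₀, hq₀⟩ := (Submodule.mem_span_range_iff_exists_fun ℚ).mp h1
  choose q hq using fun j => (Submodule.mem_span_range_iff_exists_fun ℚ).mp (hv j)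
  obtain ⟨D, hD, z, hz⟩ := Pool.Agent.TH629.ExpAlg.common_den
    (Sum.elim (fun p : Fin r × Fin (m + 1) => q p.1 p.2) q₀ : (Fin r × Fin (m + 1)) ⊕ Fin (m + 1) → ℚ)
  have hz1 : ∀ j l, ((z (Sum.inl (j, l)) : ℤ) : ℝ) = D * (q j l : ℝ) := by
    intro j l
    have := hz (Sum.inl (j, l))
    simp only [Sum.elim_inl] at this
    exact_mod_cast this
  have hz2 : ∀ l, ((z (Sum.inr l) : ℤ) : ℝ) = D * (q₀ l : ℝ) := by
    intro l
    have := hz (Sum.inr l)
    simp only [Sum.elim_inr] at this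
    exact_mod_cast this
  have hq₀' : ∑ l, (q₀ l : ℝ) * g l = 1 := by
    rw [← hq₀]
    exact Finset.sum_congr rfl fun l _ => by rw [Algebra.smul_def]; simp
  have hq' : ∀ j, ∑ l, (q j l : ℝ) * g l = v j := by
    intro j
    rw [← hq j]
    exact Finset.sum_congr rfl fun l _ => by rw [Algebra.smul_def]; simp
  have hD0 : (0 : ℝ) < D := by exact_mod_cast hD
  set V : ℝ := ∑ j, |v j| with hV
  have hV0 : 0 ≤ V := Finset.sum_nonneg fun _ _ => abs_nonneg _
  set T : ℝ := ∑ s, |(z s : ℝ)| with hT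
  have hT0 : 0 ≤ T := Finset.sum_nonneg fun _ _ => abs_nonneg _
  set C : ℝ := T * (r + V + 1) + 1 with hC
  have hr0 : (0 : ℝ) ≤ r := Nat.cast_nonneg r
  have hC1 : 1 ≤ C := by
    have : 0 ≤ T * (r + V + 1) := by positivity
    linarith
  have hC0 : 0 < C := by linarith
  have hCW : 0 < C ^ W := Real.rpow_pos_of_pos hC0 _
  refine ⟨min 1 (c₀ / (C ^ W * D)), lt_min one_pos (by positivity), ?_⟩
  intro H h hH hirr k
  have hj : ∃ j, h j ≠ 0 := by
    by_contra hcon
    push Not at hcon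
    apply hirr
    refine ⟨0, ?_⟩
    simp [hcon]
  obtain ⟨j, hj⟩ := hj
  have hH1 : 1 ≤ H := by
    refine le_trans ?_ (hH j)
    have := Int.one_le_abs hj
    exact_mod_cast this
  have hH0 : 0 < H := by linarith
  have hHW0 : 0 < H ^ (-W) := Real.rpow_pos_of_pos hH0 _
  have hHW1 : H ^ (-W) ≤ 1 := by
    calc H ^ (-W) ≤ H ^ (0 : ℝ) := Real.rpow_le_rpow_of_exponent_le hH1 (by linarith)
      _ = 1 := Real.rpow_zero _
  rcases le_or_gt 1 |∑ j, (h j : ℝ) * v j - k| with hb | hb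
  · calc min 1 (c₀ / (C ^ W * D)) * H ^ (-W) ≤ 1 * 1 := by
          apply mul_le_mul (min_le_left _ _) hHW1 hHW0.le zero_le_one
      _ = 1 := one_mul 1
      _ ≤ _ := hb
  · have hsum : |∑ j, (h j : ℝ) * v j| ≤ H * V := by
      refine (Finset.abs_sum_le_sum_abs _ _).trans ?_
      rw [hV, Finset.mul_sum]
      apply Finset.sum_le_sum
      intro j _
      rw [abs_mul]
      exact mul_le_mul_of_nonneg_right (hH j) (abs_nonneg _)
    have hk : |(k : ℝ)| ≤ H * (V + 1) := by
      have h2 : |(k : ℝ)| ≤ |∑ j, (h j : ℝ) * v j| + |∑ j, (h j : ℝ) * v j - k| := by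
        have e1 : (k : ℝ) = ∑ j, (h j : ℝ) * v j - (∑ j, (h j : ℝ) * v j - k) := by ring
        calc |(k : ℝ)| = |∑ j, (h j : ℝ) * v j - (∑ j, (h j : ℝ) * v j - k)| := by rw [← e1]
          _ ≤ _ := abs_sub _ _
      nlinarith
    obtain ⟨A, hA⟩ : ∃ A : Fin (m + 1) → ℤ,
      A = fun l => ∑ j, h j * z (Sum.inl (j, l)) - k * z (Sum.inr l) := ⟨_, rfl⟩
    have hform : ∑ l, (A l : ℝ) * g l = D * (∑ j, (h j : ℝ) * v j - k) := by
      have e1 : ∀ l, (A l : ℝ) * g l = D * (∑ j, (h j : ℝ) * ((q j l : ℝ) * g l)) -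
          D * (k * ((q₀ l : ℝ) * g l)) := by
        intro l
        rw [hA]
        push_cast
        simp_rw [hz1, hz2]
        rw [sub_mul, Finset.sum_mul, Finset.mul_sum]
        congr 1
        · apply Finset.sum_congr rfl
          intro j _
          ring
        · ring
      simp_rw [e1]
      rw [Finset.sum_sub_distrib, ← Finset.mul_sum, ← Finset.mul_sum, ← Finset.mul_sum, hq₀',
        Finset.sum_comm]
      simp_rw [← Finset.mul_sum, hq']
      ring
    have hAne : A ≠ 0 := by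
      intro h0
      rw [h0] at hform
      simp only [Pi.zero_apply, Int.cast_zero, zero_mul, Finset.sum_const_zero] at hform
      have h3 : ∑ j, (h j : ℝ) * v j - k = 0 := by
        rcases mul_eq_zero.mp hform.symm with h4 | h4
        · exact absurd h4 hD0.ne'
        · exact h4
      apply hirr
      refine ⟨k, ?_⟩
      push_cast
      linarith
    have hzT : ∀ s, |(z s : ℝ)| ≤ T := fun s =>
      Finset.single_le_sum (f := fun s => |(z s : ℝ)|) (fun _ _ => abs_nonneg _) (Finset.mem_univ s)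
    have hAb : ∀ l, |(A l : ℝ)| ≤ H * C := by
      intro l
      rw [hA]
      push_cast
      calc |∑ j, (h j : ℝ) * (z (Sum.inl (j, l)) : ℝ) - k * (z (Sum.inr l) : ℝ)| ≤
          |∑ j, (h j : ℝ) * (z (Sum.inl (j, l)) : ℝ)| + |k * (z (Sum.inr l) : ℝ)| := abs_sub _ _
        _ ≤ ∑ _j : Fin r, H * T + H * (V + 1) * T := by
            apply add_le_add
            · refine (Finset.abs_sum_le_sum_abs _ _).trans ?_
              apply Finset.sum_le_sum
              intro j _
              rw [abs_mul]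
              exact mul_le_mul (hH j) (hzT _) (abs_nonneg _) hH0.le
            · rw [abs_mul]
              exact mul_le_mul hk (hzT _) (abs_nonneg _) (by positivity)
        _ = H * (T * (r + V + 1)) := by
            rw [Finset.sum_const, Finset.card_univ, Fintype.card_fin, nsmul_eq_mul]
            ring
        _ ≤ H * C := by
            apply mul_le_mul_of_nonneg_left _ hH0.le
            rw [hC]
            linarith
    have h3 := hM A hAne (H * C) (by nlinarith) hAb
    rw [hform, abs_mul, abs_of_pos hD0, Real.mul_rpow hH0.le hC0.le] at h3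
    have hHW : 0 < H ^ W := Real.rpow_pos_of_pos hH0 _
    calc min 1 (c₀ / (C ^ W * D)) * H ^ (-W) ≤ (c₀ / (C ^ W * D)) * H ^ (-W) :=
          mul_le_mul_of_nonneg_right (min_le_right _ _) hHW0.le
      _ = c₀ / (H ^ W * C ^ W * D) := by
        rw [Real.rpow_neg hH0.le]
        field_simp
      _ ≤ _ := by
        rw [div_le_iff₀ (by positivity)]
        calc c₀ ≤ H ^ W * C ^ W * (D * |∑ j, (h j : ℝ) * v j - k|) := h3
          _ = _ := by ring

/-- the ring generated by the real algebraic numbers and `e` -/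
noncomputable def AlgExp : Subalgebra ℚ ℝ :=
  Algebra.adjoin ℚ ({x : ℝ | IsAlgebraic ℚ x} ∪ {Real.exp 1})

lemma algExp_poly (x : ℝ) (hx : x ∈ AlgExp) :
    ∃ p : Polynomial (integralClosure ℚ ℝ), x = Polynomial.aeval (Real.exp 1) p := by
  have hle : AlgExp ≤ ((Polynomial.aeval (R := integralClosure ℚ ℝ) (Real.exp 1)).range).restrictScalars ℚ := by
    apply Algebra.adjoin_le
    rintro y (hy | hy)
    · have hy' : y ∈ integralClosure ℚ ℝ := by
        rw [mem_integralClosure_iff]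
        exact isAlgebraic_iff_isIntegral.mp hy
      exact ⟨Polynomial.C ⟨y, hy'⟩, by simp [Subalgebra.algebraMap_eq]⟩
    · rw [Set.mem_singleton_iff] at hy
      exact ⟨Polynomial.X, by simp [hy]⟩
  obtain ⟨p, hp⟩ := hle hx
  exact ⟨p, hp.symm⟩

/-- finitely many elements of the ring: a measure of linear independence of a spanning family -/
theorem algExp_meas {ι : Type} [Finite ι] (v : ι → ℝ) (hv : ∀ j, v j ∈ AlgExp) :
    ∃ (m : ℕ) (g : Fin (m + 1) → ℝ) (W c₀ : ℝ), 0 ≤ W ∧ 0 < c₀ ∧ Meas g W c₀ ∧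
      (1 : ℝ) ∈ Submodule.span ℚ (Set.range g) ∧ ∀ j, v j ∈ Submodule.span ℚ (Set.range g) := by
  classical
  have := Fintype.ofFinite ι
  choose p hp using fun j => algExp_poly (v j) (hv j)
  set R : ℕ := Finset.univ.sup fun j => (p j).natDegree with hR
  have hpR : ∀ j, (p j).natDegree ≤ R := fun j =>
    Finset.le_sup (f := fun j => (p j).natDegree) (Finset.mem_univ j)
  set S : Set ℝ := Set.range (fun x : ι × Fin (R + 1) => (((p x.1).coeff x.2 : integralClosure ℚ ℝ) : ℝ))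
    with hS
  have hSint : ∀ x ∈ S, IsIntegral ℚ x := by
    rintro x ⟨y, rfl⟩
    exact ((p y.1).coeff y.2).2
  have hSfin : Finite S := Set.finite_range _
  set K : IntermediateField ℚ ℝ := IntermediateField.adjoin ℚ S with hK
  have hKfin : FiniteDimensional ℚ K := IntermediateField.finiteDimensional_adjoin hSint
  have hSK : ∀ (j : ι) (w : ℕ), w ≤ R → (((p j).coeff w : integralClosure ℚ ℝ) : ℝ) ∈ K := by
    intro j w hw
    apply IntermediateField.subset_adjoin
    exact ⟨(j, ⟨w, by omega⟩), rfl⟩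
  obtain ⟨d, hd⟩ : ∃ d, d = finrank ℚ K := ⟨_, rfl⟩
  obtain ⟨b⟩ : Nonempty (Basis (Fin d) ℚ K) := ⟨Module.finBasisOfFinrankEq ℚ K hd.symm⟩
  obtain ⟨κ, a, ha, hsp, hli⟩ := exists_linearIndependent' ℚ
    (fun x : Fin d × Fin (R + 1) => ((b x.1 : K) : ℝ) * Real.exp ((x.2 : ℕ) : ℝ))
  have hκfin : Finite κ := Finite.of_injective a ha
  have := Fintype.ofFinite κ
  have hKspan : ∀ (x : ℝ) (w : ℕ), x ∈ K → w ≤ R → x * Real.exp (w : ℝ) ∈ Submodule.span ℚ
      (Set.range (fun x : Fin d × Fin (R + 1) => ((b x.1 : K) : ℝ) * Real.exp ((x.2 : ℕ) : ℝ))) := by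
    intro x w hx hw
    have h1 : (∑ i, b.repr ⟨x, hx⟩ i • b i) = ⟨x, hx⟩ := b.sum_repr ⟨x, hx⟩
    have h2 : ∑ i, (b.repr ⟨x, hx⟩ i) • ((b i : K) : ℝ) = x := by
      have h3 := congrArg (fun y : K => (y : ℝ)) h1
      simp only at h3
      refine Eq.trans ?_ h3
      push_cast
      rfl
    rw [← h2, Finset.sum_mul]
    apply Submodule.sum_mem
    intro i _
    rw [smul_mul_assoc]
    apply Submodule.smul_mem
    apply Submodule.subset_span
    exact ⟨(i, ⟨w, by omega⟩), rfl⟩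
  have hone : (1 : ℝ) ∈ Submodule.span ℚ
      (Set.range (fun x : Fin d × Fin (R + 1) => ((b x.1 : K) : ℝ) * Real.exp ((x.2 : ℕ) : ℝ))) := by
    have := hKspan 1 0 (one_mem K) (Nat.zero_le _)
    simpa using this
  have hvs : ∀ j, v j ∈ Submodule.span ℚ
      (Set.range (fun x : Fin d × Fin (R + 1) => ((b x.1 : K) : ℝ) * Real.exp ((x.2 : ℕ) : ℝ))) := by
    intro j
    rw [hp j, Polynomial.aeval_eq_sum_range]
    apply Submodule.sum_mem
    intro w hw
    rw [mem_range] at hw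
    have h1 := hKspan _ w (hSK j w (by have := hpR j; omega)) (by have := hpR j; omega)
    rw [← Real.exp_one_pow] at h1
    exact h1
  rw [← hsp] at hone hvs
  -- the index set
  have hκne : Nonempty κ := by
    by_contra hcon
    rw [not_nonempty_iff] at hcon
    rw [Set.range_eq_empty, Submodule.span_empty, Submodule.mem_bot] at hone
    exact one_ne_zero hone
  obtain ⟨m, hm⟩ : ∃ m, Fintype.card κ = m + 1 := ⟨Fintype.card κ - 1, by
    have := Fintype.card_pos (α := κ)
    omega⟩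
  obtain ⟨eq⟩ : Nonempty (Fin (m + 1) ≃ κ) := ⟨(Fintype.equivFinOfCardEq hm).symm⟩
  have hli' : LinearIndependent ℚ fun l : Fin (m + 1) =>
      ((b (a (eq l)).1 : K) : ℝ) * Real.exp (((a (eq l)).2 : ℕ) : ℝ) := hli.comp eq eq.injective
  obtain ⟨c₀, hc₀, hMeas⟩ := Pool.Agent.TH629.ExpAlg.meas_exp_field K
    (fun l : Fin (m + 1) => b (a (eq l)).1) (fun l => ((a (eq l)).2 : ℕ)) R
    (fun l => by have := (a (eq l)).2.2; omega) hli' 1 one_pos
  have hrange : Set.range (fun l : Fin (m + 1) =>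
      ((b (a (eq l)).1 : K) : ℝ) * Real.exp (((a (eq l)).2 : ℕ) : ℝ)) =
      Set.range ((fun x : Fin d × Fin (R + 1) => ((b x.1 : K) : ℝ) * Real.exp ((x.2 : ℕ) : ℝ)) ∘ a) := by
    have := eq.surjective.range_comp
      ((fun x : Fin d × Fin (R + 1) => ((b x.1 : K) : ℝ) * Real.exp ((x.2 : ℕ) : ℝ)) ∘ a)
    exact this
  refine ⟨m, _, _, c₀, ?_, hc₀, hMeas, ?_, ?_⟩
  · rw [sub_add_cancel]
    positivity
  · rw [hrange]; exact hone
  · rw [hrange]; exact hvs

/-- the Diophantine condition for coefficients in the ring -/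
theorem dio_algExp {r : ℕ} (f : Fin r → Polynomial ℝ) (hco : ∀ j i, 1 ≤ i → (f j).coeff i ∈ AlgExp) :
    ∃ c τ : ℝ, 0 < c ∧ Dio f c τ := by
  classical
  obtain ⟨D, hD⟩ : ∃ D : ℕ, ∀ j, (f j).natDegree ≤ D :=
    ⟨Finset.univ.sup fun j => (f j).natDegree, fun j =>
      Finset.le_sup (f := fun j => (f j).natDegree) (Finset.mem_univ j)⟩
  obtain ⟨m, g, W, c₀, hW, hc₀, hM, h1, hv⟩ := algExp_meas
    (fun x : Fin r × Fin D => (f x.1).coeff (x.2 + 1)) (fun x => hco _ _ (by omega))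
  choose c hc hci using fun i : Fin D => dio_span g W c₀ hW hc₀ hM h1
    (fun j => (f j).coeff (i + 1)) (fun j => hv (j, i))
  obtain ⟨c', hc', hcc⟩ : ∃ c' : ℝ, 0 < c' ∧ ∀ i, c' ≤ c i := by
    rcases Nat.eq_zero_or_pos D with h0 | h0
    · subst h0
      exact ⟨1, one_pos, fun i => i.elim0⟩
    · have hne : (Finset.univ : Finset (Fin D)).Nonempty := ⟨⟨0, h0⟩, Finset.mem_univ _⟩
      refine ⟨Finset.univ.inf' hne c, ?_, fun j => Finset.inf'_le _ (Finset.mem_univ j)⟩
      rw [Finset.lt_inf'_iff]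
      exact fun j _ => hc j
  refine ⟨c', W, hc', ?_⟩
  intro H h hH i hi hirr _ k
  have hiD : i ≤ D := by
    by_contra hcon
    push Not at hcon
    apply hirr
    refine ⟨0, ?_⟩
    have : ∀ j, (f j).coeff i = 0 := fun j =>
      Polynomial.coeff_eq_zero_of_natDegree_lt (lt_of_le_of_lt (hD j) hcon)
    simp [this]
  obtain ⟨i', rfl⟩ : ∃ i', i = i' + 1 := ⟨i - 1, by omega⟩
  have h2 := hci ⟨i', by omega⟩ H h hH hirr k
  refine le_trans ?_ h2
  apply mul_le_mul_of_nonneg_right (hcc _)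
  apply Real.rpow_nonneg
  by_contra hcon
  push Not at hcon
  apply hirr
  refine ⟨0, ?_⟩
  have : ∀ j, (h j : ℝ) = 0 := by
    intro j
    have h3 := hH j
    have h4 := abs_nonneg (h j : ℝ)
    linarith
  simp [this]

end Pool.Agent.V7H14.BP
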