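import Pool.Agent.V7H14.BP.Mix
import Pool.Agent.V7H14.BP.Weyl

set_option autoImplicit false
set_option maxHeartbeats 4000000

/-! # The values of polynomials at the points `(n, ⌊P₁(n)⌋, …, ⌊P_r(n)⌋)` -/

namespace Pool.Agent.V7H14.BP

open Finset Filter Topology
open Pool.Agent.H469R2.NK (e norm_e e_add Cq Cq_pos)
open Pool.Agent.W147.PS (ff ff_compare ev_pow)
open Pool.Agent.N542.PT (WellDist Crit Good ff_scaled)
open Pool.Agent.Y961.JR (class_param)

theorem polys_crit (r : ℕ) (hr : 1 ≤ r) {ι : Type} (Φ : ι → MvPolynomial (Fin (r + 1)) ℤ) (hΦ : Crit (r + 1) Φ)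
    (f : Fin r → Polynomial ℝ)
    (hind : ∀ h : Fin r → ℤ, h ≠ 0 → ∃ i, 1 ≤ i ∧ Irrational (∑ j, (h j : ℝ) * (f j).coeff i))
    (c τ : ℝ) (hc : 0 < c) (hdio : Dio f c τ) (ε : ℝ) (hε : 0 < ε) (hε1 : ε ≤ 1) :
    ∃ κ : ℝ, 0 < κ ∧ ∃ Z₀ : ℝ, ∀ Z : ℝ, Z₀ ≤ Z → ∀ M : ℝ, 0 ≤ M →
      ∃ G : Finset ℕ, Z ^ (1 - ε) ≤ (G.card : ℝ) ∧ ∀ n ∈ G, M < n ∧ (n : ℝ) ≤ M + Z ∧
        Good Φ (κ * ff Z) (Z ^ ε) (vec (n : ℤ) (fun j => (f j).eval (n : ℝ))) := by
  classical
  -- enlarging `τ`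
  obtain ⟨τ', hτ', hdio'⟩ : ∃ τ' : ℝ, 0 ≤ τ' ∧ Dio f c τ' := by
    refine ⟨max τ 0, le_max_right _ _, ?_⟩
    intro H h hH i hi hirr hl m
    refine le_trans ?_ (hdio H h hH i hi hirr hl m)
    have hj : ∃ j, h j ≠ 0 := by
      by_contra hcon
      push Not at hcon
      apply hirr
      refine ⟨0, ?_⟩
      simp [hcon]
    obtain ⟨j, hj⟩ := hj
    have hH1 : 1 ≤ H := by
      refine le_trans ?_ (hH j)
      have := Int.one_le_abs hj
      exact_mod_cast this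
    apply mul_le_mul_of_nonneg_left _ hc.le
    apply Real.rpow_le_rpow_of_exponent_le hH1
    have := le_max_left τ 0
    linarith
  obtain ⟨D, hD⟩ : ∃ D : ℕ, ∀ j, (f j).natDegree ≤ D :=
    ⟨Finset.univ.sup fun j => (f j).natDegree, fun j =>
      Finset.le_sup (f := fun j => (f j).natDegree) (Finset.mem_univ j)⟩
  obtain ⟨b, hb, hden⟩ := den_comb f D hD
  have hD0 : (0 : ℝ) ≤ D := Nat.cast_nonneg D
  set σ : ℝ := 1 / (8 * ((D : ℝ) + 1) * (τ' + 1)) with hσ
  have hσ0 : 0 < σ := by positivity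
  have hσD : σ * ((D : ℝ) + 1) * (τ' + 1) = 1 / 8 := by rw [hσ]; field_simp
  set η : ℝ := min (σ / 2 ^ (D + 1)) (ε / 2) with hη
  have hη0 : 0 < η := lt_min (by positivity) (by positivity)
  have hη2 : η ≤ σ / 2 ^ (D + 1) := min_le_left _ _
  have hηε : η ≤ ε / 2 := min_le_right _ _
  have hησ : η ≤ σ := hη2.trans (div_le_self hσ0.le (one_le_pow₀ (by norm_num)))
  have hσ18 : σ * ((D : ℝ) + 1) ≤ 1 / 8 := by
    have h1 : 0 ≤ σ * ((D : ℝ) + 1) := by positivity
    nlinarith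
  have hσle : σ ≤ 1 / 8 := by nlinarith
  obtain ⟨κ, hκ, hmany⟩ := many_mix r hr Φ hΦ η hη0 (by linarith)
  refine ⟨κ, hκ, ?_⟩
  have hw : ∀ k : Fin (D + 1), ∀ᶠ Z : ℝ in atTop, ∀ F : Polynomial ℝ,
      (∀ i, (k : ℕ) + 1 < i → ∃ z : ℤ, (b : ℝ) * F.coeff i = z) →
      (∀ P : ℕ, 1 ≤ P → ∀ m : ℤ, c * ((P : ℝ) * Z ^ η) ^ (-τ') ≤
        |(P : ℝ) * F.coeff ((k : ℕ) + 1) - m|) →
      ∀ q : ℕ, 1 ≤ q → (q : ℝ) ≤ Z ^ η → ∀ n₀ L N : ℕ, L ≤ N → Z / 2 ≤ N →
      ‖∑ m ∈ range L, e (F.eval ((n₀ : ℝ) + q * (m : ℝ)) / q)‖ ≤ N * Z ^ (-η) := by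
    intro k
    have hkD : ((k : ℕ) : ℝ) + 1 ≤ (D : ℝ) + 1 := by
      have : (k : ℕ) ≤ D := by have := k.2; omega
      have h2 : ((k : ℕ) : ℝ) ≤ D := by exact_mod_cast this
      linarith
    have h1 : σ * (((k : ℕ) : ℝ) + 1) ≤ σ * ((D : ℝ) + 1) := mul_le_mul_of_nonneg_left hkD hσ0.le
    refine weyl_scale k b hb τ' c σ η hτ' hc hσ0 hη0 hησ ?_ (h1.trans hσ18) ?_
    · refine lt_of_le_of_lt hη2 ?_
      apply div_lt_div_of_pos_left hσ0 (by positivity)
      apply pow_lt_pow_right₀ (by norm_num)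
      exact k.2
    · have h2 : σ * (((k : ℕ) : ℝ) + 1) * τ' ≤ σ * ((D : ℝ) + 1) * τ' :=
        mul_le_mul_of_nonneg_right h1 hτ'
      have h3 : 0 ≤ σ * ((D : ℝ) + 1) := by positivity
      nlinarith
  apply eventually_atTop.mp
  filter_upwards [hmany, eventually_all.mpr hw, eventually_ge_atTop (4 : ℝ),
    ev_pow η 1 2 (by linarith), ev_pow (1 - ε) (1 - η) 2 (by linarith)] with Z hcr' hw' hZ4 hp1 hp2
  rw [Real.rpow_one] at hp1
  intro M hM
  have hZ0 : 0 < Z := by linarith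
  have hZ1 : 1 ≤ Z := by linarith
  set A : ℕ := ⌊M⌋₊ with hA
  set B : ℕ := ⌊M + Z⌋₊ with hB
  have hAM : (A : ℝ) ≤ M := Nat.floor_le hM
  have hAM2 : M < A + 1 := Nat.lt_floor_add_one M
  have hBM : (B : ℝ) ≤ M + Z := Nat.floor_le (by linarith)
  have hBM2 : M + Z < B + 1 := Nat.lt_floor_add_one (M + Z)
  have hAB' : (A : ℝ) < B := by linarith
  have hAB : A < B := by exact_mod_cast hAB'
  have hmem : ∀ n ∈ Ioc A B, M < (n : ℝ) ∧ (n : ℝ) ≤ M + Z := by
    intro n hn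
    rw [Finset.mem_Ioc] at hn
    have h1 : ((A + 1 : ℕ) : ℝ) ≤ n := by exact_mod_cast hn.1
    have h2 : (n : ℝ) ≤ B := by exact_mod_cast hn.2
    push_cast at h1
    constructor <;> linarith
  have hcard : ((Ioc A B).card : ℝ) = (B : ℝ) - A := by
    rw [Nat.card_Ioc, Nat.cast_sub hAB.le]
  have hZhalf : Z / 2 ≤ (Ioc A B).card := by
    rw [hcard]; linarith
  have hmain : 1 ≤ ((Ioc A B).card : ℝ) * Z ^ (-η) := by
    rw [Real.rpow_neg hZ0.le]
    have h1 : 0 < Z ^ η := Real.rpow_pos_of_pos hZ0 _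
    rw [← div_eq_mul_inv, le_div_iff₀ h1]
    linarith
  obtain ⟨G, hGs, hG1, hG2⟩ := hcr' ℕ (Ioc A B) (fun n => (n : ℤ))
    (fun n j => (f j).eval (n : ℝ)) ⟨B, Finset.mem_Ioc.mpr ⟨hAB, le_rfl⟩⟩
    (by
      intro q hq hqZ b'
      obtain ⟨n₀, L, g1, g2, g3, g4, g5, g6⟩ := class_param A B q hq hAB.le b'
      constructor
      · rw [g5, hcard]
        exact g3.trans (by rw [← hcard]; exact hmain)
      · intro h hh hhZ
        rw [g6]
        have e1 : ∀ m : ℕ, (∑ j, (h j : ℝ) * ((f j).eval ((n₀ + q * m : ℕ) : ℝ) / q)) =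
            (comb f h).eval ((n₀ : ℝ) + q * (m : ℝ)) / q := by
          intro m
          rw [comb_eval, Finset.sum_div]
          apply Finset.sum_congr rfl
          intro j _
          push_cast
          ring
        simp_rw [e1]
        -- the top irrational coefficient
        obtain ⟨i₀, hi₀, hirr₀⟩ := hind h hh
        rw [← comb_coeff] at hirr₀
        obtain ⟨k, hk, hrat, -⟩ := top_irrational (comb f h) ⟨i₀, hi₀, hirr₀⟩
        have hkD : k < D + 1 := by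
          by_contra hcon
          have h0 : (comb f h).coeff (k + 1) = 0 := by
            rw [comb_coeff]
            apply Finset.sum_eq_zero
            intro j _
            rw [Polynomial.coeff_eq_zero_of_natDegree_lt (by have := hD j; omega), mul_zero]
          rw [h0] at hk
          exact hk ⟨0, by simp⟩
        apply hw' ⟨k, hkD⟩ (comb f h) (fun i hi => hden h i (hrat i hi)) ?_ q hq hqZ n₀ L
          (Ioc A B).card ?_ hZhalf
        · intro P hP m
          have h1 := hdio' ((P : ℝ) * Z ^ η) ((P : ℤ) • h) (by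
            intro j
            simp only [Pi.smul_apply, smul_eq_mul]
            push_cast
            rw [abs_mul, Nat.abs_cast]
            exact mul_le_mul_of_nonneg_left (hhZ j) (Nat.cast_nonneg P)) (k + 1) (by omega) (by
            rw [← comb_coeff, comb_smul]
            exact hk.natCast_mul (by omega)) (by
            intro l hl
            rw [← comb_coeff, comb_smul]
            obtain ⟨x, hx⟩ := hrat l hl
            intro hcon
            apply hcon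
            refine ⟨P * x, ?_⟩
            rw [hx]
            push_cast
            ring) m
          rw [← comb_coeff, comb_smul] at h1
          exact h1
        · rw [← g5]
          exact Finset.card_filter_le _ _)
  refine ⟨G, ?_, ?_⟩
  · refine le_trans ?_ hG1
    have e1 : Z ^ (1 - η) = Z * Z ^ (-η) := by
      rw [sub_eq_add_neg, Real.rpow_add hZ0, Real.rpow_one]
    have e2 : 0 < Z ^ (-η) := Real.rpow_pos_of_pos hZ0 _
    nlinarith
  · intro n hn
    obtain ⟨h1, h2⟩ := hmem n (hGs hn)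
    refine ⟨h1, h2, ?_⟩
    intro j m hm
    obtain ⟨q, hq, hq1, hq2⟩ := hG2 n hn j m hm
    exact ⟨q, hq, hq1.trans (Real.rpow_le_rpow_of_exponent_le hZ1 (by linarith)), hq2⟩

end Pool.Agent.V7H14.BP
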