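import Pool.Agent.V7H14.BP.Weyl

set_option autoImplicit false

/-! # One real polynomial without Liouville coefficients -/

namespace Pool.Agent.V7H14.BP

open Finset

lemma irr_dist (α : ℝ) (hα : Irrational α) : ∃ c : ℝ, 0 < c ∧ ∀ m : ℤ, c ≤ |α - m| := by
  have h1 : 0 < Int.fract α := by
    rcases (Int.fract_nonneg α).lt_or_eq with h | h
    · exact h
    · exfalso
      apply hα
      refine ⟨⌊α⌋, ?_⟩
      have := Int.self_sub_floor α
      rw [← h] at this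
      push_cast
      linarith
  have h2 := Int.fract_lt_one α
  refine ⟨min (Int.fract α) (1 - Int.fract α), lt_min h1 (by linarith), ?_⟩
  intro m
  have h3 := Int.floor_add_fract α
  rcases le_or_gt m ⌊α⌋ with h | h
  · have h4 : (m : ℝ) ≤ ⌊α⌋ := by exact_mod_cast h
    calc _ ≤ Int.fract α := min_le_left _ _
      _ ≤ α - m := by linarith
      _ ≤ _ := le_abs_self _
  · have h4 : ((⌊α⌋ + 1 : ℤ) : ℝ) ≤ m := by exact_mod_cast h
    push_cast at h4
    calc _ ≤ 1 - Int.fract α := min_le_right _ _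
      _ ≤ -(α - m) := by linarith
      _ ≤ _ := neg_le_abs _

lemma dio_number (α : ℝ) (hα : Irrational α) (hL : ¬ Liouville α) :
    ∃ (c : ℝ) (k : ℕ), 0 < c ∧ c ≤ 1 ∧ ∀ h : ℤ, h ≠ 0 → ∀ m : ℤ, c * (|(h : ℝ)|) ^ (-(k : ℝ)) ≤ |h * α - m| := by
  unfold Liouville at hL
  push Not at hL
  obtain ⟨k, hk⟩ := hL
  obtain ⟨c, hc, hcm⟩ := irr_dist α hα
  refine ⟨min c 1, k, lt_min hc one_pos, min_le_right _ _, ?_⟩
  have key : ∀ h : ℤ, 0 < h → ∀ m : ℤ, min c 1 * (|(h : ℝ)|) ^ (-(k : ℝ)) ≤ |h * α - m| := by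
    intro h hh m
    have hh0 : (0 : ℝ) < h := by exact_mod_cast hh
    have hh1 : (1 : ℝ) ≤ h := by exact_mod_cast hh
    rw [abs_of_pos hh0]
    rcases (show 1 ≤ h from hh).lt_or_eq with h1 | h1
    · have h2 := hk m h h1 (by
        intro h3
        exact hα ⟨(m : ℚ) / h, by push_cast; exact h3.symm⟩)
      have e1 : |(h : ℝ) * α - m| = h * |α - m / h| := by
        rw [← abs_of_pos hh0, ← abs_mul, abs_of_pos hh0]
        congr 1
        field_simp
      rw [e1]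
      have hk0 : (0 : ℝ) < (h : ℝ) ^ (-(k : ℝ)) := Real.rpow_pos_of_pos hh0 _
      calc min c 1 * (h : ℝ) ^ (-(k : ℝ)) ≤ 1 * (h : ℝ) ^ (-(k : ℝ)) := by
            apply mul_le_mul_of_nonneg_right (min_le_right _ _) hk0.le
        _ = 1 / (h : ℝ) ^ k := by
            rw [one_mul, Real.rpow_neg hh0.le, Real.rpow_natCast, one_div]
        _ ≤ |α - m / h| := h2
        _ ≤ h * |α - m / h| := le_mul_of_one_le_left (abs_nonneg _) hh1
    · rw [← h1]
      push_cast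
      rw [Real.one_rpow, mul_one, one_mul]
      exact (min_le_left _ _).trans (hcm m)
  intro h hh m
  rcases lt_or_gt_of_ne hh with h1 | h1
  · have h2 := key (-h) (by omega) (-m)
    push_cast at h2
    rw [abs_neg] at h2
    have e1 : -(h : ℝ) * α - -(m : ℝ) = -(h * α - m) := by ring
    rw [e1, abs_neg] at h2
    exact h2
  · exact key h h1 m

theorem dio_liouville (f : Fin 1 → Polynomial ℝ) (hL : ∀ i, 1 ≤ i → ¬ Liouville ((f 0).coeff i)) :
    ∃ c τ : ℝ, 0 < c ∧ Dio f c τ := by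
  classical
  have h1 : ∀ i : ℕ, ∃ (c : ℝ) (k : ℕ), 0 < c ∧ c ≤ 1 ∧ (1 ≤ i → Irrational ((f 0).coeff i) →
      ∀ h : ℤ, h ≠ 0 → ∀ m : ℤ, c * (|(h : ℝ)|) ^ (-(k : ℝ)) ≤ |h * (f 0).coeff i - m|) := by
    intro i
    by_cases hi : 1 ≤ i ∧ Irrational ((f 0).coeff i)
    · obtain ⟨c, k, hc, hc1, h⟩ := dio_number _ hi.2 (hL i hi.1)
      exact ⟨c, k, hc, hc1, fun _ _ => h⟩
    · exact ⟨1, 0, one_pos, le_rfl, fun h h' => absurd ⟨h, h'⟩ hi⟩
  choose c k hc hc1 hck using h1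
  set D := (f 0).natDegree + 1 with hD
  refine ⟨∏ i ∈ range D, c i, ((∑ i ∈ range D, k i : ℕ) : ℝ), Finset.prod_pos fun i _ => hc i, ?_⟩
  intro H h hH i hi hirr _ m
  simp only [Fin.sum_univ_one] at hirr ⊢
  have hH' : |(h 0 : ℝ)| ≤ H := hH 0
  have hh0 : h 0 ≠ 0 := by
    intro h0
    apply hirr
    refine ⟨0, ?_⟩
    simp [h0]
  have hh1 : (1 : ℝ) ≤ |(h 0 : ℝ)| := by
    have := Int.one_le_abs hh0
    exact_mod_cast this
  have hirr' : Irrational ((f 0).coeff i) := by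
    rintro ⟨x, hx⟩
    apply hirr
    refine ⟨(h 0 : ℚ) * x, ?_⟩
    push_cast
    rw [hx]
  have hiD : i ∈ range D := by
    rw [mem_range, hD]
    by_contra hcon
    have : (f 0).coeff i = 0 := Polynomial.coeff_eq_zero_of_natDegree_lt (by omega)
    rw [this] at hirr'
    exact hirr' ⟨0, by simp⟩
  refine le_trans ?_ (hck i hi hirr' (h 0) hh0 m)
  have hk1 : (k i : ℝ) ≤ ((∑ i ∈ range D, k i : ℕ) : ℝ) := by
    exact_mod_cast Finset.single_le_sum (f := k) (fun _ _ => Nat.zero_le _) hiD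
  have hc2 : ∏ i ∈ range D, c i ≤ c i := by
    rw [← Finset.mul_prod_erase _ _ hiD]
    apply mul_le_of_le_one_right (hc i).le
    exact Finset.prod_le_one (fun j _ => (hc j).le) (fun j _ => hc1 j)
  have hH1 : 1 ≤ H := hh1.trans hH'
  apply mul_le_mul hc2 _ (Real.rpow_nonneg (by linarith) _) (hc i).le
  calc H ^ (-((∑ i ∈ range D, k i : ℕ) : ℝ)) ≤ H ^ (-(k i : ℝ)) :=
        Real.rpow_le_rpow_of_exponent_le hH1 (by linarith)
    _ ≤ (|(h 0 : ℝ)|) ^ (-(k i : ℝ)) :=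
        Real.rpow_le_rpow_of_nonpos (by linarith) hH' (by
          have : (0 : ℝ) ≤ k i := Nat.cast_nonneg _
          linarith)

end Pool.Agent.V7H14.BP
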