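import Pool.Agent.V7H14.GF.Cov
import Pool.Agent.N542.PT.Cov

set_option autoImplicit false
set_option linter.unusedSectionVars false
set_option linter.unusedVariables false

/-! # The covering theorem for families of integer vectors, with exceptional primes for each colour

The theorems `Pool.Agent.N542.PT.mcovA` (helper542) and `Pool.Agent.V7H14.GF.mcovb` together. -/

namespace Pool.Agent.V7H14.BP

open Finset Filter
open Pool.Agent.H256R2.SC (Col supp qq emb emb_mem emb_surj mem_supp prod_nu1 nu1 Asum ev_facts scales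
  qn qn_squarefree qn_primeFactors qn_cast)
open Pool.Agent.H378R2.QG
open Pool.Agent.Y837.SV
open Pool.Agent.N542.PT (crt_two count_eventA)
open Pool.Agent.V7H14.GF (Tc_lower_bad)

open scoped Classical

theorem mcovAb (d : ℕ) (C δ : ℝ) (hC : 0 ≤ C) (hδ : 0 < δ) (Dn : ℕ) : ∃ c : ℝ, 0 < c ∧ ∃ X₀ : ℝ, ∀ X : ℝ, X₀ ≤ X →
    ∀ (κ : Type) [Fintype κ] [DecidableEq κ], (Fintype.card κ : ℝ) ≤ c * Real.log X →
    ∀ (colr : ∀ p : ℕ, (Fin d → ZMod p) → Option κ) (bad : κ → Finset ℕ), (∀ k, (bad k).card ≤ Dn) →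
    (∀ p : ℕ, p.Prime → (Real.log X) ^ 2 < p → (p : ℝ) ≤ X ^ (1 / 10 : ℝ) → ∀ k, p ∈ bad k →
      dens d colr p k = 0) →
    (∀ p : ℕ, p.Prime → (Real.log X) ^ 2 < p → (p : ℝ) ≤ X ^ (1 / 10 : ℝ) → ∀ k, p ∉ bad k →
      |(p : ℝ) * dens d colr p k - 1| ≤ C * (p : ℝ) ^ (-δ)) →
    ∀ P : ℕ, 0 < P → 4 * (P : ℝ) ≤ X ^ (1 / 2 : ℝ) →
    (∀ p : ℕ, p.Prime → p ∣ P → (p : ℝ) ≤ (Real.log X) ^ 2) →
    ∀ (b0 : Fin d → ℤ) (α : Type) (s : Finset α) (w : α → Fin d → ℤ), s.Nonempty →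
    (∀ q : ℕ, 1 ≤ q → (q : ℝ) ≤ X → ∀ ρ : Fin d → ℤ,
      |((s.filter (fun i => ∀ j, (q : ℤ) ∣ w i j - ρ j)).card : ℝ) - s.card / (q : ℝ) ^ d| ≤
        s.card * X ^ (-((d : ℝ) + 1))) →
    ∃ i ∈ s, (∀ j, (P : ℤ) ∣ w i j - b0 j) ∧
      ∀ k, ∃ p : ℕ, p.Prime ∧ (Real.log X) ^ 2 < p ∧ (p : ℝ) ≤ X ^ (1 / 10 : ℝ) ∧
        colr p (red d p (w i)) = some k := by
  obtain ⟨c₂, hc₂, hAl⟩ := A_lower
  obtain ⟨C', hC'0, hTc⟩ := Tc_lower_bad C δ hC hδ Dn
  obtain ⟨CM₀, hM₀⟩ := Pool.Agent.Helper256.KM.mertens_inv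
  have hCM0 : 0 ≤ max CM₀ 0 := le_max_right _ _
  have hc₃ : 0 < c₂ * Real.exp (-C') := mul_pos hc₂ (Real.exp_pos _)
  obtain ⟨c₃, hc3⟩ : ∃ c₃, c₃ = c₂ * Real.exp (-C') := ⟨_, rfl⟩
  rw [← hc3] at hc₃
  have hC1 : 1 ≤ 2 / c₃ + 1 := by
    have : 0 < 2 / c₃ := by positivity
    linarith
  obtain ⟨c, hc⟩ : ∃ c : ℝ, c = min (1 / 8) (c₃ / 12800) := ⟨_, rfl⟩
  have hc0 : 0 < c := by rw [hc]; exact lt_min (by norm_num) (by positivity)
  have hc8 : c ≤ 1 / 8 := by rw [hc]; exact min_le_left _ _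
  have hcc : c ≤ c₃ / 12800 := by rw [hc]; exact min_le_right _ _
  obtain ⟨L₀, hL₀⟩ := ev_facts (2 / c₃ + 1) (max CM₀ 0)
  obtain ⟨L₁, hL₁⟩ := ev_dim d C δ hδ
  refine ⟨c, hc0, Real.exp (max L₀ L₁), ?_⟩
  intro X hX κ _ _ hcardκ colr bad hbadc hdens0 hdens P hP0 hP4 hPp b0 α s w hsne hcnt
  have hX0 : 0 < X := lt_of_lt_of_le (Real.exp_pos _) hX
  obtain ⟨L, hL⟩ : ∃ L, L = Real.log X := ⟨_, rfl⟩
  rw [← hL] at hcardκ hdens0 hdens hPp ⊢
  have hXL : X = Real.exp L := by rw [hL]; exact (Real.exp_log hX0).symm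
  have hLmax : max L₀ L₁ ≤ L := by
    rw [hL, ← Real.log_exp (max L₀ L₁)]
    exact Real.log_le_log (Real.exp_pos _) hX
  obtain ⟨f1, f2, f3, f4, f5, f6⟩ := hL₀ L ((le_max_left _ _).trans hLmax)
  obtain ⟨k1, k2⟩ := hL₁ L ((le_max_right _ _).trans hLmax)
  obtain ⟨m, hm1, hm2, hm3⟩ := scales (2 / c₃ + 1) L hC1 f1 f3 f5
  obtain ⟨l, hl⟩ : ∃ l, l = Real.log L := ⟨_, rfl⟩
  rw [← hl] at f1 f2 f6 hm1 hm2 hm3
  clear f3 hLmax hL₀ hL₁
  have hl0 : 0 < l := by linarith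
  have hLpos : 0 < L := by linarith
  have hLexp : L = Real.exp l := by rw [hl]; exact (Real.exp_log hLpos).symm
  have hXr : ∀ s : ℝ, X ^ s = Real.exp (s * L) := by
    intro s
    rw [hXL, ← Real.exp_mul, mul_comm]
  obtain ⟨z₀, hz₀⟩ : ∃ z₀, z₀ = Real.exp (2 * (2 / c₃ + 1) * l) := ⟨_, rfl⟩
  obtain ⟨z, hz⟩ : ∃ z, z = z₀ ^ (2 ^ m) := ⟨_, rfl⟩
  have hlogz0 : Real.log z₀ = 2 * (2 / c₃ + 1) * l := by rw [hz₀]; exact Real.log_exp _
  have hz01 : 1 < z₀ := by rw [hz₀]; exact Real.one_lt_exp_iff.mpr (by positivity)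
  have hlogz : Real.log z = (2:ℝ) ^ m * (2 * (2 / c₃ + 1) * l) := by
    rw [hz, Real.log_pow, hlogz0]
    push_cast
    ring
  have hzpos : 0 < z := by rw [hz]; positivity
  have hlz1 : Real.log z ≤ L / (1000 * l) := by rw [hlogz]; exact hm1
  have hlz2 : L / (2000 * l) ≤ Real.log z := by rw [hlogz]; exact hm2
  have hyz' : 2 * l ≤ Real.log z := by
    rw [hlogz]
    have h2j : (1:ℝ) ≤ 2 ^ m := one_le_pow₀ (by norm_num)
    have h1 : 2 * l ≤ 1 * (2 * (2 / c₃ + 1) * l) := by nlinarith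
    have h2 : 0 < 2 * (2 / c₃ + 1) * l := by positivity
    nlinarith
  clear hlogz hm1 hm2
  have hlzpos : 0 < Real.log z := lt_of_lt_of_le (by positivity) hlz2
  have hzexp : z = Real.exp (Real.log z) := (Real.exp_log hzpos).symm
  have hz1 : 1 < z := by rw [hzexp]; exact Real.one_lt_exp_iff.mpr hlzpos
  have hlzL : Real.log z ≤ L / 10000 := by
    refine hlz1.trans ?_
    apply div_le_div_of_nonneg_left hLpos.le (by norm_num)
    linarith
  have hz10 : z ≤ X ^ (1 / 10 : ℝ) := by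
    rw [hzexp, hXr]
    apply Real.exp_le_exp.mpr
    linarith
  have hy1' : 1000 ≤ L ^ 2 := by nlinarith
  have hy1 : 3 ≤ L ^ 2 := by linarith
  have hlogy : Real.log (L ^ 2) = 2 * l := by rw [Real.log_pow, ← hl]; push_cast; ring
  have hyz : L ^ 2 ≤ z := by
    rw [← Real.log_le_log_iff (by linarith) hzpos, hlogy]
    exact hyz'
  -- the sieving primes
  obtain ⟨PP, hPP⟩ : ∃ PP, PP = PZ (L ^ 2) z := ⟨_, rfl⟩
  have hPPmem : ∀ p ∈ PP, p.Prime ∧ L ^ 2 < (p:ℝ) ∧ (p:ℝ) ≤ z := by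
    intro p hp
    rw [hPP] at hp
    unfold PZ at hp
    rw [Finset.mem_filter, Finset.mem_Icc] at hp
    refine ⟨hp.2.1, hp.2.2, ?_⟩
    calc (p:ℝ) ≤ (⌊z⌋₊ : ℝ) := by exact_mod_cast hp.1.2
      _ ≤ z := Nat.floor_le hzpos.le
  have hPprime : ∀ p ∈ PP, p.Prime := fun p hp => (hPPmem p hp).1
  have hn1 : (PP.card:ℝ) + 1 ≤ z := by
    have h1 : PP ⊆ Finset.Icc 2 ⌊z⌋₊ := by
      intro p hp
      have hp' := hp
      rw [hPP] at hp'
      unfold PZ at hp'
      rw [Finset.mem_filter, Finset.mem_Icc] at hp'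
      rw [Finset.mem_Icc]
      exact ⟨hp'.2.1.two_le, hp'.1.2⟩
    have h2 := Finset.card_le_card h1
    rw [Nat.card_Icc] at h2
    have h3 : 1 ≤ ⌊z⌋₊ := Nat.le_floor (by
      push_cast
      exact hz1.le)
    have h4 : PP.card + 1 ≤ ⌊z⌋₊ := by omega
    calc (PP.card:ℝ) + 1 ≤ (⌊z⌋₊ : ℝ) := by exact_mod_cast h4
      _ ≤ z := Nat.floor_le hzpos.le
  -- the densities
  obtain ⟨χ, hχdef⟩ : ∃ χ : κ → ℕ → ℝ, χ = fun k p => if p ∈ PP then (p : ℝ) * dens d colr p k - 1 else 0 :=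
    ⟨_, rfl⟩
  have hχin : ∀ k, ∀ p ∈ PP, χ k p = (p : ℝ) * dens d colr p k - 1 := by
    intro k p hp
    rw [hχdef]
    simp only [if_pos hp]
  have hχb : ∀ k, ∀ p : ℕ, p.Prime → p ∉ bad k → |χ k p| ≤ C * (p : ℝ) ^ (-δ) := by
    intro k p hp hpb
    have hp0 : (0 : ℝ) < p := by exact_mod_cast hp.pos
    by_cases h : p ∈ PP
    · rw [hχin k p h]
      have h2 := hPPmem p h
      exact hdens p hp h2.2.1 (h2.2.2.trans hz10) k hpb
    · rw [hχdef]
      simp only [if_neg h, abs_zero]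
      positivity
  have hχ1 : ∀ k, ∀ p : ℕ, |χ k p| ≤ 1 := by
    intro k p
    by_cases h : p ∈ PP
    · have h2 := hPPmem p h
      by_cases hpb : p ∈ bad k
      · rw [hχin k p h, hdens0 p h2.1 h2.2.1 (h2.2.2.trans hz10) k hpb]
        norm_num
      refine (hχb k p h2.1 hpb).trans (le_trans ?_ k2)
      apply mul_le_mul_of_nonneg_left _ hC
      exact Real.rpow_le_rpow_of_nonpos (by positivity) h2.2.1.le (by linarith)
    · rw [hχdef]
      simp only [if_neg h, abs_zero]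
      norm_num
  obtain ⟨g, hgd⟩ : ∃ g : Fin PP.card → κ → ℝ, g = fun i k => dens d colr (emb PP i) k := ⟨_, rfl⟩
  have hPy : ∀ i : Fin PP.card, L ^ 2 < ((emb PP i : ℕ) : ℝ) :=
    fun i => (hPPmem _ (emb_mem PP i)).2.1
  have hPz : ∀ i : Fin PP.card, ((emb PP i : ℕ) : ℝ) ≤ z := fun i => (hPPmem _ (emb_mem PP i)).2.2
  have hP1 : ∀ i : Fin PP.card, 1 < ((emb PP i : ℕ) : ℝ) := fun i => by linarith [hPy i]
  have hPP0 : ∀ i : Fin PP.card, 0 < ((emb PP i : ℕ) : ℝ) := fun i => by linarith [hPy i]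
  have hgdef : ∀ (i : Fin PP.card) (k : κ), g i k =
      (1 + χ k (emb PP i)) / ((emb PP i : ℕ) : ℝ) := by
    intro i k
    rw [hχin k _ (emb_mem PP i), hgd]
    have := (hPP0 i).ne'
    field_simp
    ring
  have hg0 : ∀ (i : Fin PP.card) (k : κ), 0 ≤ g i k := fun i k => by
    rw [hgd]
    exact dens_nonneg _ _ _ _
  have hgP : ∀ (i : Fin PP.card) (k : κ), g i k ≤ 2 / ((emb PP i : ℕ) : ℝ) := fun i k => by
    rw [hgdef]
    apply div_le_div_of_nonneg_right _ (hPP0 i).le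
    have := (abs_le.mp (hχ1 k (emb PP i))).2
    linarith
  have hgy : ∀ (i : Fin PP.card) (k : κ), g i k ≤ 2 / L ^ 2 := fun i k => by
    refine (hgP i k).trans ?_
    exact div_le_div_of_nonneg_left (by norm_num) (by linarith) (hPy i).le
  -- the profiles
  have hAsum : ∀ (k : κ) (x : ℝ), Asum (fun i => ((emb PP i : ℕ) : ℝ)) (fun i => g i k) x =
      ∑ s ∈ (PP.powerset.filter (fun s : Finset ℕ => s.Nonempty ∧ ∏ p ∈ s, (p : ℝ) ≤ x)),
        ∏ p ∈ s, (1 + χ k p) / p := fun k x => by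
    have e : (fun i => g i k) = (fun i => (1 + χ k (emb PP i)) / ((emb PP i : ℕ) : ℝ)) := by
      funext i
      exact hgdef i k
    rw [e]
    exact Asum_enum PP (fun p => (1 + χ k p) / p) x
  obtain ⟨K₁, hK₁⟩ : ∃ K₁, K₁ = 4 / (c₃ / (4 * l) * ((m + 1 : ℕ) : ℝ)) := ⟨_, rfl⟩
  have hprof : ∀ k : κ, ∃ h, Hyp (fun i => ((emb PP i : ℕ) : ℝ))
      (fun i => g i k) h z K₁ := by
    intro k
    rw [hK₁]
    apply prof_good hc₃ hl0 hlogz0 hz01 hz hy1 hlogy _ _ hP1 (fun i => hg0 i k)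
    intro x hx1 hx2
    have h1 := hAl (L ^ 2) z x C' (χ k) (hχ1 k) hy1 hx1 hx2 hC'0
      (fun w _ _ => hTc (χ k) (bad k) (hbadc k) (fun p hp hpb => (abs_le.1 (hχb k p hp hpb)).1)
        (fun p => (abs_le.1 (hχ1 k p)).1) _ _)
    rw [← hc3, ← hPP] at h1
    rw [hAsum]
    exact h1
  clear hAsum hAl hTc
  choose h H using hprof
  have hK16 : K₁ ≤ 16 / c₃ := by
    rw [hK₁, div_le_div_iff₀ (by positivity) hc₃]
    have h1 : c₃ / 4 ≤ c₃ / (4 * l) * ((m + 1 : ℕ) : ℝ) := by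
      push_cast
      calc c₃ / 4 = c₃ / (4 * l) * l := by field_simp
        _ ≤ c₃ / (4 * l) * (m + 1) := mul_le_mul_of_nonneg_left hm3 (by positivity)
    linarith
  have hK₁0 : 0 ≤ K₁ := by rw [hK₁]; positivity
  have hKsum : ∑ k : κ, K₁ ≤ L / 400 := by
    rw [Finset.sum_const, Finset.card_univ, nsmul_eq_mul]
    calc (Fintype.card κ : ℝ) * K₁ ≤ (c * L) * (16 / c₃) :=
          mul_le_mul hcardκ hK16 hK₁0 (by positivity)
      _ ≤ (c₃ / 12800 * L) * (16 / c₃) := by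
          apply mul_le_mul_of_nonneg_right _ (by positivity)
          exact mul_le_mul_of_nonneg_right hcc hLpos.le
      _ = L / 800 := by field_simp; ring
      _ ≤ L / 400 := by linarith
  obtain ⟨u, hu⟩ : ∃ u, u = (Fintype.card κ : ℝ) := ⟨_, rfl⟩
  have hu0 : 0 ≤ u := by rw [hu]; exact Nat.cast_nonneg _
  have huL : u ≤ L / 8 := by
    rw [hu]
    refine hcardκ.trans ?_
    calc c * L ≤ 1 / 8 * L := mul_le_mul_of_nonneg_right hc8 hLpos.le
      _ = L / 8 := by ring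
  -- the sum of the densities
  have hmax : 20 * max CM₀ 0 ≤ l := f2
  have hz3 : 3 ≤ z := by linarith
  have hsumP : ∑ i : Fin PP.card, 1 / ((emb PP i : ℕ) : ℝ) ≤ l + max CM₀ 0 := by
    have h1 : ∑ i : Fin PP.card, 1 / ((emb PP i : ℕ) : ℝ) = ∑ p ∈ PP, 1 / (p:ℝ) := by
      have : PP = univ.map (emb PP) := by
        ext p
        rw [Finset.mem_map]
        constructor
        · intro hp
          obtain ⟨i, hi⟩ := emb_surj PP hp
          exact ⟨i, Finset.mem_univ _, hi⟩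
        · rintro ⟨i, _, rfl⟩
          exact emb_mem PP i
      conv_rhs => rw [this]
      rw [Finset.sum_map]
    rw [h1, hPP, hl]
    exact sum_inv_PZ hM₀ hz3 (by linarith)
  have hGk : ∀ k : κ, ∑ i, g i k ≤ 2 * (l + max CM₀ 0) := by
    intro k
    calc ∑ i, g i k ≤ ∑ i : Fin PP.card, 2 * (1 / ((emb PP i : ℕ) : ℝ)) := by
          apply Finset.sum_le_sum
          intro i _
          have := hgP i k
          have e : 2 * (1 / ((emb PP i : ℕ) : ℝ)) = 2 / ((emb PP i : ℕ) : ℝ) := by ring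
          rw [e]
          exact this
      _ = 2 * ∑ i : Fin PP.card, 1 / ((emb PP i : ℕ) : ℝ) := by rw [Finset.mul_sum]
      _ ≤ 2 * (l + max CM₀ 0) := by linarith
  -- parameters
  obtain ⟨J, hJ⟩ : ∃ J : ℕ, J = 2 * ⌈22 * l⌉₊ := ⟨_, rfl⟩
  have hJ1 : 44 * l ≤ (J:ℝ) := by
    have := Nat.le_ceil (22 * l)
    rw [hJ]; push_cast; linarith
  have hJ2 : (J:ℝ) ≤ 45 * l := by
    have := Nat.ceil_lt_add_one (show 0 ≤ 22 * l by positivity)
    rw [hJ]; push_cast; linarith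
  have hJe : Even J := ⟨⌈22 * l⌉₊, by rw [hJ]; ring⟩
  have hQ1 : 1 ≤ Real.exp (L / 40) := Real.one_le_exp (by positivity)
  have hzJ : z ^ J ≤ Real.exp (45 * L / 1000) := by
    rw [hzexp, ← Real.exp_nat_mul]
    apply Real.exp_le_exp.mpr
    calc (J:ℝ) * Real.log z ≤ (45 * l) * (L / (1000 * l)) :=
          mul_le_mul hJ2 hlz1 hlzpos.le (by positivity)
      _ = 45 * L / 1000 := by field_simp
  -- sizes of supports
  have hL1 : 1 ≤ L := by linarith
  have hδ' : ∀ D : Col PP.card κ, qq (fun i => ((emb PP i : ℕ) : ℝ)) D ≤ Real.exp (L / 40) →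
      ∀ k, 2 * ∑ i with D i ≠ none, g i k ≤ 2 / L := by
    intro D hD k
    have h1 : ∑ i with D i ≠ none, g i k ≤ (supp D).card * (2 / L ^ 2) := by
      have : ∑ i ∈ supp D, g i k ≤ ∑ i ∈ supp D, (2 / L ^ 2) :=
        Finset.sum_le_sum (fun i _ => hgy i k)
      rw [Finset.sum_const, nsmul_eq_mul] at this
      exact this
    have h2 := supp_card_le (fun i => ((emb PP i : ℕ) : ℝ)) hLexp hL1 hPy D (L / 40) hD
    have h2' : ((supp D).card : ℝ) ≤ L / 40 := by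
      have h2 : 0 ≤ ((supp D).card : ℝ) := Nat.cast_nonneg _
      nlinarith
    have h3 : ((supp D).card : ℝ) * (2 / L ^ 2) ≤ L / 40 * (2 / L ^ 2) :=
      mul_le_mul_of_nonneg_right h2' (by positivity)
    have h4 : L / 40 * (2 / L ^ 2) = 1 / (20 * L) := by field_simp; norm_num
    have h5 : 1 / (20 * L) ≤ 1 / L := by
      apply one_div_le_one_div_of_le hLpos
      linarith
    have h6 : 2 / L = 2 * (1 / L) := by ring
    rw [h6]
    linarith
  -- the set of the points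
  obtain ⟨𝒜, hA⟩ : ∃ 𝒜 : Finset α, 𝒜 = s.filter (fun i => ∀ j, (P : ℤ) ∣ w i j - b0 j) := ⟨_, rfl⟩
  have hPR : (0 : ℝ) < P := by exact_mod_cast hP0
  have hs0 : (0 : ℝ) < s.card := by exact_mod_cast hsne.card_pos
  obtain ⟨N, hN⟩ : ∃ N : ℝ, N = s.card / (P : ℝ) ^ d := ⟨_, rfl⟩
  have hNpos : 0 < N := by rw [hN]; exact div_pos hs0 (pow_pos hPR d)
  have hX1 : 1 ≤ X := by rw [hXL]; exact Real.one_le_exp hLpos.le
  -- the count
  have hevent : ∀ D : Col PP.card κ,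
      qq (fun i => ((emb PP i : ℕ) : ℝ)) D ≤ Real.exp (L / 40) ^ 2 * z ^ J →
      |((𝒜.filter (fun a => ∀ i, D i ≠ none → colm d colr PP (w a) i = D i)).card : ℝ) -
        N * nu g D| ≤ N * Real.exp (-(35 * L / 100)) := by
    intro D hD
    have hD1 : qq (fun i => ((emb PP i : ℕ) : ℝ)) D ≤ Real.exp (L / 10) := by
      refine hD.trans ?_
      calc Real.exp (L / 40) ^ 2 * z ^ J ≤ Real.exp (L / 40) ^ 2 * Real.exp (45 * L / 1000) :=
            mul_le_mul_of_nonneg_left hzJ (by positivity)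
        _ = Real.exp (L / 20 + 45 * L / 1000) := by
            rw [← Real.exp_nat_mul, ← Real.exp_add]
            congr 1
            push_cast
            ring
        _ ≤ Real.exp (L / 10) := Real.exp_le_exp.mpr (by linarith)
    have hcast : ((∏ i ∈ supp D, emb PP i : ℕ) : ℝ) = qq (fun i => ((emb PP i : ℕ) : ℝ)) D :=
      qn_cast PP D
    have hqpos : 0 < ∏ i ∈ supp D, emb PP i :=
      Finset.prod_pos fun i _ => (hPprime _ (emb_mem PP i)).pos
    have hqR : (0 : ℝ) < ((∏ i ∈ supp D, emb PP i : ℕ) : ℝ) := by exact_mod_cast hqpos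
    have hcopP : Nat.Coprime P (∏ i ∈ supp D, emb PP i) := by
      rw [Nat.coprime_iff_gcd_eq_one]
      by_contra hne
      obtain ⟨p, hp, hpd⟩ := Nat.exists_prime_and_dvd hne
      have h1 : p ∣ P := hpd.trans (Nat.gcd_dvd_left _ _)
      have h2 : p ∣ ∏ i ∈ supp D, emb PP i := hpd.trans (Nat.gcd_dvd_right _ _)
      rw [Prime.dvd_finsetProd_iff hp.prime] at h2
      obtain ⟨i, _, hi2⟩ := h2
      have h3 : p = emb PP i := (Nat.prime_dvd_prime_iff_eq hp (hPprime _ (emb_mem PP i))).1 hi2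
      have h4 := hPp p hp h1
      have h5 := hPy i
      rw [← h3] at h5
      linarith
    have hPqX : ((P * ∏ i ∈ supp D, emb PP i : ℕ) : ℝ) ≤ X := by
      have h1 : (P : ℝ) ≤ X ^ (1 / 2 : ℝ) := by linarith
      have h2 : ((∏ i ∈ supp D, emb PP i : ℕ) : ℝ) ≤ X ^ (1 / 10 : ℝ) := by
        rw [hcast, hXr]
        refine hD1.trans (le_of_eq ?_)
        congr 1
        ring
      rw [Nat.cast_mul]
      calc (P : ℝ) * ((∏ i ∈ supp D, emb PP i : ℕ) : ℝ) ≤ X ^ (1 / 2 : ℝ) * X ^ (1 / 10 : ℝ) :=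
            mul_le_mul h1 h2 hqR.le (Real.rpow_nonneg hX0.le _)
        _ = X ^ (3 / 5 : ℝ) := by rw [← Real.rpow_add hX0]; norm_num
        _ ≤ X ^ (1 : ℝ) := Real.rpow_le_rpow_of_exponent_le hX1 (by norm_num)
        _ = X := Real.rpow_one X
    have hE0 : 0 ≤ (s.card : ℝ) * X ^ (-((d : ℝ) + 1)) :=
      mul_nonneg hs0.le (Real.rpow_nonneg hX0.le _)
    have h1 := count_eventA d (supp D) (fun i => emb PP i) (fun i _ => hPprime _ (emb_mem PP i))
      (fun i _ j _ hij h => hij ((emb PP).injective h))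
      (fun i x => colr (emb PP i) x = D i) 𝒜 w N (s.card * X ^ (-((d : ℝ) + 1))) hE0
      (by
        intro c
        obtain ⟨r, hr⟩ := crt_two P (∏ i ∈ supp D, emb PP i) hcopP b0 c
        have h2 := hcnt (P * ∏ i ∈ supp D, emb PP i) (Nat.mul_pos hP0 hqpos) hPqX r
        have h3 : 𝒜.filter (fun a => ∀ j, ((∏ i ∈ supp D, emb PP i : ℕ) : ℤ) ∣ w a j - c j) =
            s.filter (fun a => ∀ j, ((P * ∏ i ∈ supp D, emb PP i : ℕ) : ℤ) ∣ w a j - r j) := by
          rw [hA, Finset.filter_filter]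
          apply Finset.filter_congr
          intro x _
          exact hr (w x)
        have h4 : N / ((∏ i ∈ supp D, emb PP i : ℕ) : ℝ) ^ d =
            s.card / ((P * ∏ i ∈ supp D, emb PP i : ℕ) : ℝ) ^ d := by
          rw [hN, Nat.cast_mul, mul_pow, div_div]
        rw [h3, h4]
        exact h2)
    have hfilt : 𝒜.filter (fun a => ∀ i, D i ≠ none → colm d colr PP (w a) i = D i) =
        𝒜.filter (fun a => ∀ i ∈ supp D, colr (emb PP i) (red d (emb PP i) (w a)) = D i) := by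
      apply Finset.filter_congr
      intro a _
      constructor
      · intro h i hi
        exact h i (mem_supp.mp hi)
      · intro h i hi
        exact h i (mem_supp.mpr hi)
    have hnu : nu g D = ∏ i ∈ supp D,
        (((BB d (emb PP i) (fun x => colr (emb PP i) x = D i)).card : ℝ) / ((emb PP i : ℕ) : ℝ) ^ d) := by
      unfold nu supp
      rw [Finset.prod_filter]
      refine Finset.prod_congr rfl fun i _ => ?_
      cases h : D i with
      | none => simp [nug]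
      | some k =>
        simp only [nug, ne_eq, reduceCtorEq, not_false_eq_true, if_true]
        rw [hgd]
        rfl
    rw [hfilt, hnu]
    have h1' : |((𝒜.filter
        (fun a => ∀ i ∈ supp D, colr (emb PP i) (red d (emb PP i) (w a)) = D i)).card : ℝ) -
        N * ∏ i ∈ supp D, (((BB d (emb PP i) (fun x => colr (emb PP i) x = D i)).card : ℝ) /
          ((emb PP i : ℕ) : ℝ) ^ d)| ≤
        ((∏ i ∈ supp D, emb PP i : ℕ) : ℝ) ^ d * (s.card * X ^ (-((d : ℝ) + 1))) := by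
      convert h1
    refine h1'.trans ?_
    have h5 : ((P : ℝ) * ((∏ i ∈ supp D, emb PP i : ℕ) : ℝ)) ^ d ≤ X ^ (d : ℝ) := by
      rw [Real.rpow_natCast]
      apply pow_le_pow_left₀ (mul_pos hPR hqR).le
      rw [← Nat.cast_mul]
      exact hPqX
    have h6 : X ^ (d : ℝ) * X ^ (-((d : ℝ) + 1)) ≤ Real.exp (-(35 * L / 100)) := by
      rw [← Real.rpow_add hX0, hXr]
      apply Real.exp_le_exp.mpr
      have e1 : ((d : ℝ) + -((d : ℝ) + 1)) * L = -L := by ring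
      rw [e1]
      linarith
    have hPd : (0 : ℝ) < (P : ℝ) ^ d := pow_pos hPR d
    rw [hN, div_mul_eq_mul_div, le_div_iff₀ hPd]
    calc ((∏ i ∈ supp D, emb PP i : ℕ) : ℝ) ^ d * (s.card * X ^ (-((d : ℝ) + 1))) * (P : ℝ) ^ d
        = s.card * (((P : ℝ) * ((∏ i ∈ supp D, emb PP i : ℕ) : ℝ)) ^ d * X ^ (-((d : ℝ) + 1))) := by
          rw [mul_pow]
          ring
      _ ≤ s.card * (X ^ (d : ℝ) * X ^ (-((d : ℝ) + 1))) := by
          apply mul_le_mul_of_nonneg_left _ hs0.le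
          exact mul_le_mul_of_nonneg_right h5 (Real.rpow_nonneg hX0.le _)
      _ ≤ s.card * Real.exp (-(35 * L / 100)) := mul_le_mul_of_nonneg_left h6 hs0.le
  -- apply the core theorem
  clear hK16 hK₁0 hcc hcardκ k1 k2 hdens hdens0
  obtain ⟨a, ha, hcov⟩ := core (κ := κ) 𝒜 (fun a => colm d colr PP (w a)) H (Real.exp (L / 40))
    (2 / L) 3 N (N * Real.exp (-(35 * L / 100))) (2 * (l + max CM₀ 0)) J
    hJe (by norm_num) hNpos (by positivity) hQ1 hz1 (fun i => (hP1 i).le) hg0 hPz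
    (fun i k => by
      have h1 : (2:ℝ) / L ^ 2 ≤ 1 := by rw [div_le_one (by linarith)]; linarith
      exact (hgy i k).trans h1)
    (fun i k => by
      have h1 : (2:ℝ) / L ^ 2 ≤ 1 / 9 := by
        rw [div_le_div_iff₀ (by linarith) (by norm_num)]
        linarith
      have := hgy i k
      linarith)
    (fun i => by
      have h0 : ∑ k, g i k ≤ ∑ k : κ, 2 / L ^ 2 := Finset.sum_le_sum (fun k _ => hgy i k)
      rw [Finset.sum_const, Finset.card_univ, nsmul_eq_mul, ← hu] at h0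
      have h1 : u * (2 / L ^ 2) ≤ (L / 8) * (2 / L ^ 2) :=
        mul_le_mul_of_nonneg_right huL (by positivity)
      have h2 : (L / 8) * (2 / L ^ 2) = 1 / (4 * L) := by field_simp; norm_num
      have h3 : 1 / (4 * L) ≤ 1 := by rw [div_le_one (by positivity)]; linarith
      linarith)
    (by positivity) hGk hδ'
    (by
      rw [← hu]
      have : u * (2 / L) ≤ (L / 8) * (2 / L) := mul_le_mul_of_nonneg_right huL (by positivity)
      have e : (L / 8) * (2 / L) = 1 / 4 := by field_simp; norm_num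
      linarith)
    (by
      rw [← hu]
      have h1 : ∑ i : Fin PP.card, 1 / ((emb PP i : ℕ) : ℝ) ^ 2 ≤
          (1 / L ^ 2) * ∑ i : Fin PP.card, 1 / ((emb PP i : ℕ) : ℝ) := by
        rw [Finset.mul_sum]
        apply Finset.sum_le_sum
        intro i _
        have e1 : 1 / ((emb PP i : ℕ) : ℝ) ^ 2 =
            (1 / ((emb PP i : ℕ) : ℝ)) * (1 / ((emb PP i : ℕ) : ℝ)) := by
          have := (hPP0 i).ne'
          field_simp
        rw [e1]
        apply mul_le_mul_of_nonneg_right _ (one_div_nonneg.mpr (hPP0 i).le)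
        exact one_div_le_one_div_of_le (by linarith) (hPy i).le
      have h2 : (1 / L ^ 2) * ∑ i : Fin PP.card, 1 / ((emb PP i : ℕ) : ℝ) ≤ (1 / L ^ 2) * (2 * L) := by
        apply mul_le_mul_of_nonneg_left _ (by positivity)
        linarith
      have h3 : (1 / L ^ 2) * (2 * L) = 2 / L := by field_simp
      have h4 : 2 * u * ∑ i : Fin PP.card, 1 / ((emb PP i : ℕ) : ℝ) ^ 2 ≤ 2 * (L / 8) * (2 / L) := by
        apply mul_le_mul _ (by linarith) (Finset.sum_nonneg (fun i _ => by positivity))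
          (by positivity)
        linarith
      have e : 2 * (L / 8) * (2 / L) = 1 / 2 := by field_simp; norm_num
      linarith)
    (by
      rw [← hu]
      exact num_tail hLexp f1 f5 hu0 huL hzpos hlzpos hlz1 hlz2 hKsum)
    (by
      rw [← hu]
      exact num_mom hLexp f1 f5 hu0 huL hJ1 (by linarith))
    hevent
    (by
      rw [← hu]
      exact num_fin2 f5 hu0 (by linarith) hn1 hzJ hNpos)
  rw [hA, mem_filter] at ha
  refine ⟨a, ha.1, ha.2, fun k => ?_⟩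
  obtain ⟨i, hi⟩ := hcov k
  have h2 := hPPmem _ (emb_mem PP i)
  exact ⟨emb PP i, h2.1, h2.2.1, h2.2.2.trans hz10, hi⟩

end Pool.Agent.V7H14.BP
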