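import Pool.Agent.N542.PT.Real
import Pool.Agent.Y961.JR.Bounds
import Pool.Agent.Y961.JR.Disc
import Pool.Agent.W147.PS.Scale

set_option autoImplicit false
set_option maxHeartbeats 4000000

/-! # The criterion for vectors of real numbers together with an integer -/

namespace Pool.Agent.V7H14.BP

open Finset Filter Topology
open Pool.Agent.H469R2.NK (e norm_e e_add)
open Pool.Agent.W147.PS (ff ff_compare ev_pow)
open Pool.Agent.Y961.JR (discJ ev_bounds)
open Pool.Agent.N542.PT (WellDist Crit Good ff_scaled)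

open scoped Classical

/-- the integer vector `(u, ⌊a⌋)` -/
noncomputable def vec {r : ℕ} (u : ℤ) (a : Fin r → ℝ) : Fin (r + 1) → ℤ := Fin.cons u (fun j => ⌊a j⌋)

/-- The family is well distributed in residue classes, with a saving of `E`: the integers `u` and, in each class,
the real vectors `a`. -/
def Mixed {α : Type} {r : ℕ} (T H E : ℝ) (s : Finset α) (u : α → ℤ) (a : α → Fin r → ℝ) : Prop :=
  ∀ q : ℕ, 1 ≤ q → (q : ℝ) ≤ T → ∀ b : ℤ,
    |((s.filter (fun i => (q : ℤ) ∣ u i - b)).card : ℝ) - s.card / q| ≤ E ∧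
    ∀ h : Fin r → ℤ, h ≠ 0 → (∀ j, |(h j : ℝ)| ≤ H) →
      ‖∑ i ∈ s.filter (fun i => (q : ℤ) ∣ u i - b), e (∑ j, (h j : ℝ) * (a i j / q))‖ ≤ E

theorem wellDist_mix (r : ℕ) (hr : 1 ≤ r) : ∃ X₀ : ℝ, ∀ X : ℝ, X₀ ≤ X →
    ∀ (α : Type) (s : Finset α) (u : α → ℤ) (a : α → Fin r → ℝ),
    Mixed (X ^ (2 / 5 : ℝ)) (X ^ (10 * (r + 1))) (s.card * X ^ (-(20 * ((r : ℝ) + 1) ^ 2))) s u a →
    WellDist (X ^ (2 / 5 : ℝ)) s (fun i => vec (u i) (a i)) := by
  obtain ⟨X₂, h2⟩ := eventually_atTop.mp (ev_bounds r (r + 1) hr (by omega))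
  refine ⟨X₂, ?_⟩
  intro X hX α s u a hE
  obtain ⟨b1, b2⟩ := h2 X hX
  have hX0 : 0 < X := by linarith
  have hX1 : 1 ≤ X := by linarith
  have hcast : (((r + 1 : ℕ) : ℝ)) = (r : ℝ) + 1 := by push_cast; rfl
  intro q hq hqX ρ
  have hq0 : (0 : ℝ) < q := by exact_mod_cast hq
  have hq1 : (1 : ℝ) ≤ q := by exact_mod_cast hq
  obtain ⟨k1, k2, k3, k4⟩ := b2 q hq hqX s.card (Nat.cast_nonneg _)
  obtain ⟨g1, g2⟩ := hE q hq hqX (ρ 0)
  set s' := s.filter (fun i => (q : ℤ) ∣ u i - ρ 0) with hs'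
  rw [hcast] at k4
  have hd := discJ hr s' a ⌈X ^ (3 * (r + 1))⌉₊ q k1 hq k2
    (s.card * X ^ (-(20 * ((r : ℝ) + 1) ^ 2)))
    (by positivity) (fun h hh hh2 => g2 h hh (fun j => by
      have h5 : ((h j).natAbs : ℝ) < ((⌈X ^ (3 * (r + 1))⌉₊ : ℕ) : ℝ) ^ 3 := by
        exact_mod_cast hh2 j
      have h6 : |(h j : ℝ)| = ((h j).natAbs : ℝ) := by
        rw [Nat.cast_natAbs]; push_cast; rfl
      rw [h6]
      exact h5.le.trans k3)) (fun j => ρ j.succ)
  have hfil : (s.filter (fun i => ∀ j, (q : ℤ) ∣ vec (u i) (a i) j - ρ j)) =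
      s'.filter (fun i => ∀ j : Fin r, (q : ℤ) ∣ ⌊a i j⌋ - ρ j.succ) := by
    rw [hs', Finset.filter_filter]
    apply Finset.filter_congr
    intro i _
    rw [Fin.forall_fin_succ]
    simp only [vec, Fin.cons_zero, Fin.cons_succ]
  rw [hfil]
  have hcard : (s'.card : ℝ) ≤ s.card := by
    exact_mod_cast Finset.card_filter_le _ _
  have t1 : (q : ℝ) ^ r * ((3 * (r : ℝ) + 4) * s'.card / (⌈X ^ (3 * (r + 1))⌉₊ : ℕ) +
      ((⌈X ^ (3 * (r + 1))⌉₊ : ℕ) : ℝ) ^ (3 * r) *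
        (s.card * X ^ (-(20 * ((r : ℝ) + 1) ^ 2)))) ≤
      s.card * X ^ (-(2 * ((r : ℝ) + 1))) / 2 := by
    refine le_trans ?_ k4
    gcongr
  have t2 : |(s'.card : ℝ) / (q : ℝ) ^ r - s.card / (q : ℝ) ^ (r + 1)| ≤
      s.card * X ^ (-(2 * ((r : ℝ) + 1))) / 2 := by
    have e1 : (s'.card : ℝ) / (q : ℝ) ^ r - s.card / (q : ℝ) ^ (r + 1) =
        (s'.card - s.card / q) / (q : ℝ) ^ r := by
      rw [pow_succ]
      field_simp
    have hqr : 1 ≤ (q : ℝ) ^ r := one_le_pow₀ hq1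
    rw [e1, abs_div, abs_of_pos (show (0 : ℝ) < (q : ℝ) ^ r by positivity)]
    refine (div_le_self (abs_nonneg _) hqr).trans (g1.trans ?_)
    rw [mul_div_assoc]
    apply mul_le_mul_of_nonneg_left _ (Nat.cast_nonneg _)
    have hr1 : (1 : ℝ) ≤ r := by exact_mod_cast hr
    calc X ^ (-(20 * ((r : ℝ) + 1) ^ 2)) ≤ X ^ (-(2 * ((r : ℝ) + 1)) + (-1)) := by
          apply Real.rpow_le_rpow_of_exponent_le (by linarith)
          nlinarith
      _ = X ^ (-(2 * ((r : ℝ) + 1))) * X ^ (-1 : ℝ) := Real.rpow_add hX0 _ _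
      _ ≤ X ^ (-(2 * ((r : ℝ) + 1))) * (1 / 2) := by
          apply mul_le_mul_of_nonneg_left _ (Real.rpow_nonneg hX0.le _)
          rw [Real.rpow_neg_one, ← one_div]
          exact one_div_le_one_div_of_le (by norm_num) (by linarith)
      _ = _ := by ring
  have t0 : X ^ (-(2 * ((r : ℝ) + 1))) ≤ (X ^ (2 / 5 : ℝ)) ^ (-(((r + 1 : ℕ) : ℝ) + 1)) := by
    rw [← Real.rpow_mul hX0.le, hcast]
    apply Real.rpow_le_rpow_of_exponent_le hX1
    have hr1 : (1 : ℝ) ≤ r := by exact_mod_cast hr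
    linarith
  have t6 : (s.card : ℝ) * X ^ (-(2 * ((r : ℝ) + 1))) ≤
      s.card * (X ^ (2 / 5 : ℝ)) ^ (-(((r + 1 : ℕ) : ℝ) + 1)) :=
    mul_le_mul_of_nonneg_left t0 (Nat.cast_nonneg _)
  have t3 := hd.trans t1
  have t4 := abs_le.mp t3
  have t5 := abs_le.mp t2
  rw [abs_le]
  constructor <;> linarith [t4.1, t4.2, t5.1, t5.2]

variable {ι : Type}

theorem scaled_mix (r : ℕ) (hr : 1 ≤ r) (F : ι → MvPolynomial (Fin (r + 1)) ℤ) (hF : Crit (r + 1) F) (η : ℝ)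
    (h0 : 0 < η) (h1 : η ≤ 1) : ∃ κ : ℝ, 0 < κ ∧ ∀ᶠ M : ℝ in atTop,
    ∀ (α : Type) (s : Finset α) (u : α → ℤ) (a : α → Fin r → ℝ), s.Nonempty →
    Mixed (M ^ η) (M ^ η) (s.card * M ^ (-η)) s u a →
    ∃ i ∈ s, Good F (κ * ff M) (M ^ η) (vec (u i) (a i)) := by
  obtain ⟨κ, hκ, X₀, hc⟩ := hF
  obtain ⟨X₁, hw⟩ := wellDist_mix r hr
  have hr1 : (1 : ℝ) ≤ r := by exact_mod_cast hr
  set θ : ℝ := η / (20 * ((r : ℝ) + 1) ^ 2) with hθ
  have hr2 : (1 : ℝ) ≤ ((r : ℝ) + 1) ^ 2 := one_le_pow₀ (by linarith)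
  have hθ0 : 0 < θ := by positivity
  have hθη : θ ≤ η := div_le_self h0.le (by linarith)
  have hθ1 : θ ≤ 1 := hθη.trans h1
  set θ' : ℝ := θ * (2 / 5) with hθ'
  have hθ'0 : 0 < θ' := by positivity
  have hθ'1 : θ' ≤ 1 := by linarith
  refine ⟨κ * (θ' / 32), by positivity, ?_⟩
  filter_upwards [ff_compare θ' hθ'0 hθ'1, (tendsto_rpow_atTop hθ'0).eventually_ge_atTop X₀,
    (tendsto_rpow_atTop hθ0).eventually_ge_atTop X₁,
    eventually_ge_atTop (1 : ℝ)] with M hM hMX hMX1 hM1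
  intro α s u a hs hE
  have hM0 : 0 < M := by linarith
  have hmono : ∀ x y : ℝ, x ≤ y → M ^ x ≤ M ^ y := fun x y h =>
    Real.rpow_le_rpow_of_exponent_le hM1 h
  have hexp : (M ^ θ) ^ (-(20 * ((r : ℝ) + 1) ^ 2)) = M ^ (-η) := by
    rw [← Real.rpow_mul hM0.le]
    congr 1
    rw [hθ]
    field_simp
  have hwd := hw (M ^ θ) hMX1 α s u a (by
    intro q hq hqX b
    obtain ⟨g1, g2⟩ := hE q hq (hqX.trans (by
      rw [← Real.rpow_mul hM0.le]
      apply hmono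
      linarith)) b
    rw [hexp]
    refine ⟨g1, fun h hh hhX => g2 h hh fun j => (hhX j).trans ?_⟩
    rw [← Real.rpow_natCast, ← Real.rpow_mul hM0.le]
    apply hmono
    push_cast
    have e1 : θ * (10 * ((r : ℝ) + 1)) * (2 * (r + 1)) = η := by rw [hθ]; field_simp; norm_num
    have e2 : 0 ≤ θ * (10 * ((r : ℝ) + 1)) := by positivity
    nlinarith)
  rw [← Real.rpow_mul hM0.le] at hwd
  obtain ⟨i, hi, hi2⟩ := hc (M ^ θ') hMX α s _ hs hwd
  refine ⟨i, hi, fun j n hn => ?_⟩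
  obtain ⟨p, hp, hp1, hp2⟩ := hi2 j n (hn.trans (ff_scaled κ θ' M hκ hθ'1 hM1 hM.2))
  refine ⟨p, hp, hp1.trans ?_, hp2⟩
  rw [← Real.rpow_mul hM0.le]
  apply hmono
  linarith

/-- many members -/
theorem many_mix (r : ℕ) (hr : 1 ≤ r) (F : ι → MvPolynomial (Fin (r + 1)) ℤ) (hF : Crit (r + 1) F) (η : ℝ)
    (hη : 0 < η) (hη1 : η ≤ 1) :
    ∃ κ : ℝ, 0 < κ ∧ ∀ᶠ Z : ℝ in atTop, ∀ (α : Type) (s : Finset α) (u : α → ℤ) (x : α → Fin r → ℝ),
      s.Nonempty → Mixed (Z ^ η) (Z ^ η) (s.card * Z ^ (-η)) s u x →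
      ∃ G ⊆ s, (s.card : ℝ) * Z ^ (-η) ≤ (G.card : ℝ) ∧
        ∀ i ∈ G, Good F (κ * ff Z) (Z ^ η) (vec (u i) (x i)) := by
  obtain ⟨κ, hκ, hcrit⟩ := scaled_mix r hr F hF (η / 2) (by positivity) (by linarith)
  refine ⟨κ, hκ, ?_⟩
  filter_upwards [hcrit, eventually_ge_atTop (1 : ℝ), ev_pow (-η) (-(η / 2)) 8 (by linarith),
    ev_pow (-(η / 2)) 0 8 (by linarith)] with Z hcr hZ1 hp1 hp2
  rw [Real.rpow_zero] at hp2
  intro ι' s u x hs hsum
  have hZ0 : 0 < Z := by linarith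
  have hspos : (0 : ℝ) < s.card := by exact_mod_cast Finset.card_pos.mpr hs
  have hmono : Z ^ (η / 2) ≤ Z ^ η := Real.rpow_le_rpow_of_exponent_le hZ1 (by linarith)
  have hZe : 0 < Z ^ (-(η / 2)) := Real.rpow_pos_of_pos hZ0 _
  set G : Finset ι' := s.filter (fun i => Good F (κ * ff Z) (Z ^ η) (vec (u i) (x i))) with hG
  have hGs : G ⊆ s := filter_subset _ _
  have hkey : (s.card : ℝ) * Z ^ (-(η / 2)) / 4 ≤ G.card := by
    by_contra hlt
    rw [not_le] at hlt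
    set t : Finset ι' := s \ G with ht
    have htcard : (t.card : ℝ) = s.card - G.card := by
      rw [ht, card_sdiff_of_subset hGs, Nat.cast_sub (card_le_card hGs)]
    have htbig : 3 / 4 * (s.card : ℝ) ≤ t.card := by
      rw [htcard]
      nlinarith
    have h4 : 3 / 4 * (s.card : ℝ) * Z ^ (-(η / 2)) ≤ t.card * Z ^ (-(η / 2)) := by gcongr
    have hsub : ∀ (P : ι' → Prop) (_ : DecidablePred P), (t.filter P) = (s.filter P) \ (G.filter P) := by
      intro P _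
      ext i
      simp only [ht, Finset.mem_filter, Finset.mem_sdiff]
      tauto
    have hGsub : ∀ (P : ι' → Prop) (_ : DecidablePred P), G.filter P ⊆ s.filter P := fun P _ =>
      filter_subset_filter P hGs
    obtain ⟨i, hi, hi2⟩ := hcr ι' t u x (by
        rw [← Finset.card_pos]
        have : (0 : ℝ) < t.card := by linarith
        exact_mod_cast this) (by
        intro q hq hqZ b
        obtain ⟨g1, g2⟩ := hsum q hq (hqZ.trans hmono) b
        have hq1 : (1 : ℝ) ≤ q := by exact_mod_cast hq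
        have hq0 : (0 : ℝ) < q := by linarith
        have hGc : ((G.filter (fun i => (q : ℤ) ∣ u i - b)).card : ℝ) ≤ G.card := by
          exact_mod_cast Finset.card_filter_le _ _
        have hG0 : (0 : ℝ) ≤ ((G.filter (fun i => (q : ℤ) ∣ u i - b)).card : ℝ) := Nat.cast_nonneg _
        refine ⟨?_, ?_⟩
        · have e1 : ((t.filter (fun i => (q : ℤ) ∣ u i - b)).card : ℝ) =
              (s.filter (fun i => (q : ℤ) ∣ u i - b)).card - (G.filter (fun i => (q : ℤ) ∣ u i - b)).card := by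
            rw [hsub, card_sdiff_of_subset (hGsub _ _), Nat.cast_sub (card_le_card (hGsub _ _))]
          have e2 : (G.card : ℝ) / q ≤ G.card := div_le_self (Nat.cast_nonneg _) hq1
          have e3 : (0 : ℝ) ≤ (G.card : ℝ) / q := by positivity
          rw [e1, htcard, sub_div]
          have g1' := abs_le.1 g1
          rw [abs_le]
          constructor
          · nlinarith [g1'.1, g1'.2]
          · nlinarith [g1'.1, g1'.2]
        · intro h hh hhZ
          have h1 := g2 h hh (fun j => (hhZ j).trans hmono)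
          have h2 : ∑ i ∈ t.filter (fun i => (q : ℤ) ∣ u i - b), e (∑ j, (h j : ℝ) * (x i j / q)) =
              ∑ i ∈ s.filter (fun i => (q : ℤ) ∣ u i - b), e (∑ j, (h j : ℝ) * (x i j / q)) -
              ∑ i ∈ G.filter (fun i => (q : ℤ) ∣ u i - b), e (∑ j, (h j : ℝ) * (x i j / q)) := by
            rw [hsub, ← sum_sdiff (hGsub _ _)]
            ring
          rw [h2]
          have h3 : ‖∑ i ∈ G.filter (fun i => (q : ℤ) ∣ u i - b), e (∑ j, (h j : ℝ) * (x i j / q))‖ ≤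
              G.card := by
            refine (norm_sum_le _ _).trans ?_
            simp only [norm_e, sum_const, nsmul_eq_mul, mul_one]
            exact hGc
          calc _ ≤ _ := norm_sub_le _ _
            _ ≤ s.card * Z ^ (-η) + G.card := add_le_add h1 h3
            _ ≤ _ := by nlinarith)
    rw [ht] at hi
    have hi3 := Finset.mem_sdiff.mp hi
    apply hi3.2
    rw [hG, mem_filter]
    refine ⟨hi3.1, fun j n hn => ?_⟩
    obtain ⟨p, hp, hp1, hp2⟩ := hi2 j n hn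
    exact ⟨p, hp, hp1.trans hmono, hp2⟩
  refine ⟨G, hGs, ?_, ?_⟩
  · nlinarith
  · intro i hi
    rw [hG, mem_filter] at hi
    exact hi.2

end Pool.Agent.V7H14.BP
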